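import Pool.Agent.Lib.MP_1c0d65_gt.Hol.Cpt

/-! Qualitative tools: closed graph, local to global, algebra of Hoelder functions, extension by
zero. -/

namespace Pool.Agent.Lib.MP_1c0d65_gt

open Metric Set Filter Topology

noncomputable section

variable {a : ℝ} {X : Type*} [MetricSpace X] {Y : Type*} [MetricSpace Y]
  {Z : Type*} [NormedAddCommGroup Z] [NormedSpace ℝ Z]
  {E : Type*} [NormedAddCommGroup E] [NormedSpace ℝ E]
  {F : Type*} [NormedAddCommGroup F] [NormedSpace ℝ F]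
  {G : Type*} [NormedAddCommGroup G] [NormedSpace ℝ G]

/-- a linear map with Hoelder values and continuous point evaluations is bounded -/
def Hol.liftC [CompleteSpace Z] [CompleteSpace F] (T : Z →ₗ[ℝ] X → F) (h1 : ∀ z, IsHol a (T z))
    (h2 : ∀ x, Continuous fun z => T z x) : Z →L[ℝ] Hol a X F :=
  ContinuousLinearMap.ofSeqClosedGraph
    (g := ⟨⟨fun z => Hol.mk (T z) (h1 z), fun u v => Hol.ext fun x => congrFun (map_add T u v) x⟩,
      fun c u => Hol.ext fun x => congrFun (map_smul T c u) x⟩)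
    fun _ z y hu hy => Hol.ext fun x => tendsto_nhds_unique
      (((Hol.continuous_eval x).tendsto y).comp hy) (((h2 x).tendsto z).comp hu)

@[simp] theorem Hol.liftC_apply [CompleteSpace Z] [CompleteSpace F] (T : Z →ₗ[ℝ] X → F) (h1 h2)
    (z : Z) (x : X) : (Hol.liftC (a := a) T h1 h2 z) x = T z x := rfl

/-- compactness from a qualitative gain of regularity -/
theorem Hol.isCompactOperator_of_isHol [CompleteSpace Z] [FiniteDimensional ℝ F] {b : ℝ}
    (ha : 0 ≤ a) (hab : a < b) {K : Set X} (hK : IsCompact K) (S : Z →L[ℝ] Hol a X F)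
    (hS : ∀ z x, x ∉ K → S z x = 0) (h : ∀ z, IsHol b (S z)) : IsCompactOperator S := by
  have := FiniteDimensional.complete ℝ F
  let T : Z →L[ℝ] Hol b X F := Hol.liftC (Hol.coeL.comp (S : Z →ₗ[ℝ] Hol a X F)) h
    fun x => (Hol.continuous_eval x).comp S.continuous
  have : S = (Hol.inclL ha hab.le).comp T := by
    ext z x
    rfl
  rw [this]
  exact Hol.isCompactOperator_incl ha hab hK T hS

namespace IsHol

theorem const (v : F) : IsHol a fun _ : X => v := (Hol.constL v : Hol a X F).isHol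

theorem add {f g : X → F} (hf : IsHol a f) (hg : IsHol a g) : IsHol a fun x => f x + g x :=
  (Hol.mk f hf + Hol.mk g hg).isHol

theorem sub {f g : X → F} (hf : IsHol a f) (hg : IsHol a g) : IsHol a fun x => f x - g x :=
  (Hol.mk f hf - Hol.mk g hg).isHol

theorem clm (A : F →L[ℝ] G) {f : X → F} (hf : IsHol a f) : IsHol a fun x => A (f x) :=
  (Hol.mapL A (Hol.mk f hf)).isHol

theorem bil (B : E →L[ℝ] F →L[ℝ] G) {f : X → E} {g : X → F} (hf : IsHol a f) (hg : IsHol a g) :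
    IsHol a fun x => B (f x) (g x) := (Hol.bil B (Hol.mk f hf) (Hol.mk g hg)).isHol

theorem smul {f : X → ℝ} {g : X → F} (hf : IsHol a f) (hg : IsHol a g) :
    IsHol a fun x => f x • g x := bil (ContinuousLinearMap.lsmul ℝ ℝ) hf hg

theorem prod {f : X → E} {g : X → F} (hf : IsHol a f) (hg : IsHol a g) :
    IsHol a fun x => (f x, g x) := by
  have := (Hol.pairL (Hol.mk f hf, Hol.mk g hg)).isHol
  convert this using 2 with x
  rw [Hol.pairL_apply]
  rfl

theorem comp (ha : 0 ≤ a) {φ : Y → X} {L : NNReal} (hφ : LipschitzWith L φ) {f : X → F}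
    (hf : IsHol a f) : IsHol a fun y => f (φ y) := (Hol.compL ha φ hφ (Hol.mk f hf)).isHol

theorem restrict (ha : 0 ≤ a) {f : X → F} (hf : IsHol a f) (D : Set X) :
    IsHol a fun x : D => f x.1 := hf.comp ha (LipschitzWith.subtype_val D)

theorem mono {b : ℝ} (ha : 0 ≤ a) (hab : a ≤ b) {f : X → F} (hf : IsHol b f) : IsHol a f :=
  (Hol.inclL ha hab (Hol.mk f hf)).isHol

theorem continuous (ha : 0 < a) {f : X → F} (hf : IsHol a f) : Continuous f :=
  (Hol.mk f hf).continuous ha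

omit [NormedSpace ℝ F] in
/-- a bound for close pairs is enough -/
theorem of_close (ha : 0 ≤ a) {f : X → F} {M C δ : ℝ} (hδ : 0 < δ) (h1 : ∀ x, ‖f x‖ ≤ M)
    (h2 : ∀ x y, dist x y < δ → ‖f x - f y‖ ≤ C * dist x y ^ a) : IsHol a f := by
  refine ⟨max M (max C (2 * M / δ ^ a)), fun x => (h1 x).trans (le_max_left _ _), fun x y => ?_⟩
  rcases lt_or_ge (dist x y) δ with h | h
  · exact (h2 x y h).trans (mul_le_mul_of_nonneg_right
      ((le_max_left _ _).trans (le_max_right _ _)) (by positivity))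
  · have hM : 0 ≤ M := (norm_nonneg _).trans (h1 x)
    have hp : 0 < δ ^ a := by positivity
    calc ‖f x - f y‖ ≤ 2 * M / δ ^ a * δ ^ a := by
          rw [div_mul_cancel₀ _ hp.ne']
          linarith [norm_sub_le (f x) (f y), h1 x, h1 y]
      _ ≤ 2 * M / δ ^ a * dist x y ^ a := by gcongr
      _ ≤ _ := mul_le_mul_of_nonneg_right ((le_max_right _ _).trans (le_max_right _ _))
          (by positivity)

/-- locally Hoelder on a compact space -/
theorem of_locally [CompactSpace X] (ha : 0 ≤ a) {f : X → F}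
    (h : ∀ x, ∃ U ∈ 𝓝 x, ∃ C : ℝ, ∀ y ∈ U, ‖f y‖ ≤ C ∧ ∀ z ∈ U, ‖f y - f z‖ ≤ C * dist y z ^ a) :
    IsHol a f := by
  choose U hU C hC using h
  obtain ⟨t, -, ht⟩ := isCompact_univ.elim_nhds_subcover (fun x => interior (U x))
    fun x _ => interior_mem_nhds.2 (hU x)
  obtain ⟨δ, hδ, hl⟩ := lebesgue_number_lemma_of_metric (c := fun x : t => interior (U x.1))
    isCompact_univ (fun _ => isOpen_interior) (by
      intro y hy
      obtain ⟨x, hx, hy⟩ := mem_iUnion₂.1 (ht hy)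
      exact mem_iUnion.2 ⟨⟨x, hx⟩, hy⟩)
  have hb : ∀ x : t, C x.1 ≤ ∑ x ∈ t, |C x| := fun x =>
    (le_abs_self _).trans (Finset.single_le_sum (f := fun x => |C x|) (fun _ _ => abs_nonneg _) x.2)
  refine of_close ha (M := ∑ x ∈ t, |C x|) (C := ∑ x ∈ t, |C x|) hδ (fun y => ?_) fun y z hyz => ?_
  · obtain ⟨x, hx⟩ := hl y (mem_univ y)
    exact (hC x.1 y (interior_subset (hx (mem_ball_self hδ)))).1.trans (hb x)
  · obtain ⟨x, hx⟩ := hl z (mem_univ z)
    exact ((hC x.1 y (interior_subset (hx hyz))).2 z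
      (interior_subset (hx (mem_ball_self hδ)))).trans
      (mul_le_mul_of_nonneg_right (hb x) (by positivity))

/-- the form on a compact subset: near each point the function agrees with a Hoelder function -/
theorem of_eventuallyEq (ha : 0 ≤ a) {D : Set X} (hD : IsCompact D) {f : X → F}
    (h : ∀ x ∈ D, ∃ g : X → F, IsHol a g ∧ f =ᶠ[𝓝 x] g) : IsHol a fun x : D => f x.1 := by
  have : CompactSpace D := isCompact_iff_compactSpace.1 hD
  refine of_locally ha fun x => ?_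
  obtain ⟨g, ⟨C, h1, h2⟩, hg⟩ := h x.1 x.2
  refine ⟨_, continuous_subtype_val.continuousAt.preimage_mem_nhds hg, C, fun y hy => ?_⟩
  have hy' : f y.1 = g y.1 := hy
  refine ⟨hy' ▸ h1 _, fun z hz => ?_⟩
  have hz' : f z.1 = g z.1 := hz
  rw [hy', hz']
  exact h2 _ _

/-- functions of class `C^1` near a compact set -/
theorem of_contDiffAt (ha : 0 ≤ a) (ha1 : a ≤ 1) {D : Set E} (hD : IsCompact D) {f : E → F}
    (h : ∀ x ∈ D, ContDiffAt ℝ 1 f x) : IsHol a fun x : D => f x.1 := by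
  have : CompactSpace D := isCompact_iff_compactSpace.1 hD
  refine mono ha ha1 (of_locally zero_le_one fun x => ?_)
  obtain ⟨L, t, ht, hL⟩ := (h x.1 x.2).exists_lipschitzOnWith
  have hb : ∀ᶠ y in 𝓝 x.1, ‖f y‖ < ‖f x.1‖ + 1 :=
    (h x.1 x.2).continuousAt.norm.eventually (gt_mem_nhds (lt_add_one _))
  refine ⟨_, continuous_subtype_val.continuousAt.preimage_mem_nhds (inter_mem ht hb),
    max (‖f x.1‖ + 1) L, fun y hy => ⟨(le_of_lt hy.2).trans (le_max_left _ _), fun z hz => ?_⟩⟩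
  rw [Real.rpow_one, ← dist_eq_norm]
  exact (hL.dist_le_mul _ hy.1 _ hz.1).trans
    (mul_le_mul_of_nonneg_right (le_max_right _ _) dist_nonneg)

end IsHol

open Classical in
/-- the product with a cut-off, extended by zero -/
def cut0 (χ : X → ℝ) {D : Set X} (θ : D → F) (x : X) : F :=
  if h : x ∈ D then χ x • θ ⟨x, h⟩ else 0

theorem cut0_of_mem (χ : X → ℝ) {D : Set X} (θ : D → F) {x : X} (h : x ∈ D) :
    cut0 χ θ x = χ x • θ ⟨x, h⟩ := dif_pos h

theorem cut0_of_zero {χ : X → ℝ} {D : Set X} (θ : D → F) {x : X} (h : χ x = 0) :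
    cut0 χ θ x = 0 := by
  unfold cut0
  split_ifs
  · rw [h, zero_smul]
  · rfl

theorem cut0_bound {χ : X → ℝ} (hχ : IsHol a χ) {D : Set X} (hD : ∀ x, x ∉ D → χ x = 0) :
    ∃ C : ℝ, 0 ≤ C ∧ ∀ θ : Hol a D F, (∀ x, ‖cut0 χ θ x‖ ≤ C * ‖θ‖) ∧
      ∀ x y, ‖cut0 χ θ x - cut0 χ θ y‖ ≤ C * ‖θ‖ * dist x y ^ a := by
  let c : Hol a X ℝ := Hol.mk χ hχ
  have c1 : ∀ x, ‖χ x‖ ≤ ‖c‖ := c.norm_apply_le
  have c2 : ∀ x y, ‖χ x - χ y‖ ≤ ‖c‖ * dist x y ^ a := c.norm_sub_le
  refine ⟨2 * ‖c‖, by positivity, fun θ => ?_⟩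
  have h0 : 0 ≤ ‖c‖ * ‖θ‖ := by positivity
  have one : ∀ x y, y ∉ D → ‖cut0 χ θ x‖ ≤ 2 * ‖c‖ * ‖θ‖ * dist x y ^ a := by
    intro x y hy
    by_cases hx : x ∈ D
    · rw [cut0_of_mem χ θ hx, norm_smul]
      have h1 := c2 x y
      rw [hD y hy, sub_zero] at h1
      have h2 := mul_le_mul h1 (θ.norm_apply_le ⟨x, hx⟩) (norm_nonneg _) (by positivity)
      have h3 : 0 ≤ ‖c‖ * ‖θ‖ * dist x y ^ a := by positivity
      linarith
    · rw [cut0_of_zero θ (hD x hx), norm_zero]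
      positivity
  refine ⟨fun x => ?_, fun x y => ?_⟩
  · by_cases hx : x ∈ D
    · rw [cut0_of_mem χ θ hx, norm_smul]
      have := mul_le_mul (c1 x) (θ.norm_apply_le ⟨x, hx⟩) (norm_nonneg _) (norm_nonneg _)
      linarith
    · rw [cut0_of_zero θ (hD x hx), norm_zero]
      positivity
  · by_cases hy : y ∈ D
    · by_cases hx : x ∈ D
      · rw [cut0_of_mem χ θ hx, cut0_of_mem χ θ hy]
        have e : χ x • θ ⟨x, hx⟩ - χ y • θ ⟨y, hy⟩ =
            (χ x - χ y) • θ ⟨x, hx⟩ + χ y • (θ ⟨x, hx⟩ - θ ⟨y, hy⟩) := by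
          rw [sub_smul, smul_sub]
          abel
        rw [e]
        refine (norm_add_le _ _).trans ?_
        rw [norm_smul, norm_smul]
        have h1 := mul_le_mul (c2 x y) (θ.norm_apply_le ⟨x, hx⟩) (norm_nonneg _) (by positivity)
        have h2 := mul_le_mul (c1 y) (θ.norm_sub_le ⟨x, hx⟩ ⟨y, hy⟩) (norm_nonneg _) (norm_nonneg _)
        rw [Subtype.dist_eq] at h2
        linarith
      · rw [cut0_of_zero θ (hD x hx), zero_sub, norm_neg, dist_comm]
        exact one y x hx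
    · rw [cut0_of_zero θ (hD y hy), sub_zero]
      exact one x y hy

/-- multiplication by a cut-off and extension by zero as an operator -/
def Hol.cutL {χ : X → ℝ} (hχ : IsHol a χ) {D : Set X} (hD : ∀ x, x ∉ D → χ x = 0) :
    Hol a D F →L[ℝ] Hol a X F :=
  Hol.liftL
    ⟨⟨fun θ => cut0 χ θ, fun θ θ' => funext fun x => by
        by_cases hx : x ∈ D
        · simp only [Pi.add_apply, cut0_of_mem χ _ hx, Hol.add_apply, smul_add]
        · simp only [Pi.add_apply, cut0_of_zero _ (hD x hx), add_zero]⟩,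
      fun c θ => funext fun x => by
        by_cases hx : x ∈ D
        · simp only [Pi.smul_apply, cut0_of_mem χ _ hx, Hol.smul_apply, RingHom.id_apply]
          exact smul_comm _ _ _
        · simp only [Pi.smul_apply, cut0_of_zero _ (hD x hx), smul_zero]⟩
    (cut0_bound (F := F) hχ hD).choose (cut0_bound (F := F) hχ hD).choose_spec.1
    (fun θ => ((cut0_bound hχ hD).choose_spec.2 θ).1) fun θ => ((cut0_bound hχ hD).choose_spec.2 θ).2

@[simp] theorem Hol.cutL_apply {χ : X → ℝ} (hχ : IsHol a χ) {D : Set X}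
    (hD : ∀ x, x ∉ D → χ x = 0) (θ : Hol a D F) (x : X) : Hol.cutL hχ hD θ x = cut0 χ θ x := rfl

theorem Hol.norm_sub_le_sqrt (f : Hol (1 / 2) E F) (x y : E) : ‖f x - f y‖ ≤ ‖f‖ * √‖x - y‖ := by
  rw [Real.sqrt_eq_rpow, ← dist_eq_norm x y]
  exact f.norm_sub_le x y

omit [NormedSpace ℝ E] [NormedSpace ℝ F] in
theorem IsHol.of_sqrt {f : E → F} {M H : ℝ} (h1 : ∀ x, ‖f x‖ ≤ M)
    (h2 : ∀ x y, ‖f x - f y‖ ≤ H * √‖x - y‖) : IsHol (1 / 2) f :=
  ⟨max M H, fun x => (h1 x).trans (le_max_left _ _), fun x y => by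
    rw [dist_eq_norm, ← Real.sqrt_eq_rpow]
    exact (h2 x y).trans (mul_le_mul_of_nonneg_right (le_max_right _ _) (Real.sqrt_nonneg _))⟩

end

end Pool.Agent.Lib.MP_1c0d65_gt
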