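import Pool.Agent.Lib.MP_1c0d65_gt.Hol.Nem

/-! Compact operators into Hoelder spaces, the Fredholm alternative and the implicit function
theorem for identity plus compact. -/

namespace Pool.Agent.Lib.MP_1c0d65_gt

open Metric Set Filter Topology
open scoped BoundedContinuousFunction

noncomputable section

namespace Hol

variable {a b : ℝ} {X : Type*} [MetricSpace X]
  {Z : Type*} [NormedAddCommGroup Z] [NormedSpace ℝ Z]
  {F : Type*} [NormedAddCommGroup F] [NormedSpace ℝ F]

/-- interpolation: small supremum and bounded `b`-norm give small `a`-norm -/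
theorem interp (ha : 0 ≤ a) (hab : a < b) (M : ℝ) {ε : ℝ} (hε : 0 < ε) :
    ∃ δ > 0, ∀ g : Hol b X F, ‖g‖ ≤ M → (∀ x, ‖g x‖ ≤ δ) → ‖inclL ha hab.le g‖ ≤ ε := by
  obtain ⟨η, η0, hη⟩ : ∃ η > 0, |M| * η ^ (b - a) ≤ ε := by
    have hc : Tendsto (fun η : ℝ => |M| * η ^ (b - a)) (𝓝[>] 0) (𝓝 0) := by
      have : ContinuousAt (fun η : ℝ => |M| * η ^ (b - a)) 0 :=
        continuousAt_const.mul (Real.continuousAt_rpow_const _ _ (Or.inr (by linarith)))
      have h2 := this.tendsto.mono_left (nhdsWithin_le_nhds (s := Ioi 0))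
      simpa [Real.zero_rpow (by linarith : b - a ≠ 0)] using h2
    obtain ⟨η, h1, h2⟩ := ((hc.eventually (ge_mem_nhds hε)).and self_mem_nhdsWithin).exists
    exact ⟨η, h2, h1⟩
  refine ⟨min ε (ε * η ^ a / 2), lt_min hε (by positivity), fun g hg h => ?_⟩
  refine norm_le hε.le (fun x => (h x).trans (min_le_left _ _)) fun x y => ?_
  simp only [inclL_apply]
  rcases eq_or_ne x y with rfl | hxy
  · rw [sub_self, norm_zero]
    positivity
  have hd := dist_pos.2 hxy
  rcases le_total (dist x y) η with h1 | h1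
  · refine (g.norm_sub_le x y).trans ?_
    have e : dist x y ^ b = dist x y ^ (b - a) * dist x y ^ a := by
      rw [← Real.rpow_add hd, sub_add_cancel]
    rw [e, ← mul_assoc]
    refine mul_le_mul_of_nonneg_right (le_trans ?_ hη) (by positivity)
    exact mul_le_mul (hg.trans (le_abs_self M)) (Real.rpow_le_rpow hd.le h1 (by linarith))
      (by positivity) (abs_nonneg M)
  · have h2 := (_root_.norm_sub_le (g x) (g y)).trans
      (add_le_add ((h x).trans (min_le_right _ _)) ((h y).trans (min_le_right _ _)))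
    have h3 := mul_le_mul_of_nonneg_left (Real.rpow_le_rpow η0.le h1 ha) hε.le
    linarith

/-- the restriction to a subset as a bounded continuous function -/
def toBCF (hb : 0 < b) (K : Set X) (g : Hol b X F) : K →ᵇ F :=
  BoundedContinuousFunction.ofNormedAddCommGroup (fun x => g x.1)
    ((g.continuous hb).comp continuous_subtype_val) ‖g‖ fun x => g.norm_apply_le x.1

/-- an operator that gains Hoelder regularity and has values supported in a compact set is
compact -/
theorem isCompactOperator_incl [FiniteDimensional ℝ F] (ha : 0 ≤ a) (hab : a < b) {K : Set X}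
    (hK : IsCompact K) (T : Z →L[ℝ] Hol b X F) (hT : ∀ z x, x ∉ K → T z x = 0) :
    IsCompactOperator ((inclL ha hab.le).comp T) := by
  have hb : 0 < b := ha.trans_lt hab
  have := FiniteDimensional.proper_real F
  have := FiniteDimensional.complete ℝ F
  have : CompactSpace K := isCompact_iff_compactSpace.1 hK
  have hn : ∀ z ∈ ball (0 : Z) 1, ‖T z‖ ≤ ‖T‖ := fun z hz =>
    (T.le_opNorm z).trans (mul_le_of_le_one_right (norm_nonneg _) (mem_ball_zero_iff.1 hz).le)
  let A : Set (K →ᵇ F) := (fun z => toBCF hb K (T z)) '' ball 0 1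
  have hA : IsCompact (closure A) := by
    refine BoundedContinuousFunction.arzela_ascoli (closedBall 0 ‖T‖) (isCompact_closedBall _ _) A
      ?_ ?_
    · rintro _ x ⟨z, hz, rfl⟩
      exact mem_closedBall_zero_iff.2 (((T z).norm_apply_le x.1).trans (hn z hz))
    · refine Metric.equicontinuous_of_continuity_modulus (fun d => ‖T‖ * d ^ b) ?_ _ ?_
      · have : ContinuousAt (fun d : ℝ => ‖T‖ * d ^ b) 0 :=
          continuousAt_const.mul (Real.continuousAt_rpow_const _ _ (Or.inr hb.le))
        simpa [Real.zero_rpow hb.ne'] using this.tendsto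
      · rintro x y ⟨_, z, hz, rfl⟩
        rw [dist_eq_norm]
        exact ((T z).norm_sub_le x.1 y.1).trans
          (mul_le_mul_of_nonneg_right (hn z hz) (by positivity))
  have htb : TotallyBounded (((inclL ha hab.le).comp T) '' ball 0 1) := by
    refine Metric.totallyBounded_iff.2 fun ε hε => ?_
    obtain ⟨δ, hδ, H⟩ := interp (X := X) (F := F) ha hab (2 * ‖T‖) (half_pos hε)
    obtain ⟨t, t1, t2, t3⟩ := Metric.finite_approx_of_totallyBounded
      (hA.totallyBounded.subset subset_closure) δ hδ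
    have t1' : ∀ u ∈ t, ∃ z ∈ ball (0 : Z) 1, toBCF hb K (T z) = u := t1
    choose! ζ hζ1 hζ2 using t1'
    refine ⟨(fun u => (inclL ha hab.le).comp T (ζ u)) '' t, t2.image _, ?_⟩
    rintro _ ⟨z, hz, rfl⟩
    obtain ⟨u, hu, hzu⟩ := mem_iUnion₂.1 (t3 ⟨z, hz, rfl⟩)
    refine mem_iUnion₂.2 ⟨_, ⟨u, hu, rfl⟩, mem_ball_iff_norm.2 ?_⟩
    have h1 := And.intro (hζ1 u hu) (hζ2 u hu)
    have e : (inclL ha hab.le).comp T z - (inclL ha hab.le).comp T (ζ u) =
        inclL ha hab.le (T z - T (ζ u)) := by simp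
    rw [e]
    refine (H _ ?_ fun x => ?_).trans_lt (half_lt_self hε)
    · refine (_root_.norm_sub_le _ _).trans ?_
      linarith [hn z hz, hn _ h1.1]
    · by_cases hx : x ∈ K
      · have h2 := BoundedContinuousFunction.dist_coe_le_dist
          (f := toBCF hb K (T z)) (g := u) ⟨x, hx⟩
        have h3 : u ⟨x, hx⟩ = T (ζ u) x := by
          have := congrArg (fun w : K →ᵇ F => w ⟨x, hx⟩) h1.2
          exact this.symm
        rw [h3, dist_eq_norm] at h2
        exact h2.trans (mem_ball.1 hzu).le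
      · rw [sub_apply, hT z x hx, hT _ x hx, sub_zero, norm_zero]
        exact hδ.le
  exact (isCompactOperator_iff_isCompact_closure_image_ball
    ((inclL ha hab.le).comp T : Z →ₗ[ℝ] Hol a X F) one_pos).2
    (htb.closure.isCompact_of_isClosed isClosed_closure)

theorem isCompactOperator_inclL [CompactSpace X] [FiniteDimensional ℝ F] (ha : 0 ≤ a)
    (hab : a < b) : IsCompactOperator (inclL ha hab.le : Hol b X F →L[ℝ] Hol a X F) :=
  isCompactOperator_incl ha hab isCompact_univ (.id ℝ _) fun _ x h => absurd (mem_univ x) h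

/-- the form for users: the values of `S` satisfy a better Hoelder bound and vanish off `K` -/
theorem isCompactOperator_of_bound [FiniteDimensional ℝ F] (ha : 0 ≤ a) (hab : a < b) {K : Set X}
    (hK : IsCompact K) (S : Z →L[ℝ] Hol a X F) (hS : ∀ z x, x ∉ K → S z x = 0) {C : ℝ}
    (hC : 0 ≤ C) (h : ∀ z x y, ‖S z x - S z y‖ ≤ C * ‖z‖ * dist x y ^ b) :
    IsCompactOperator S := by
  let T : Z →L[ℝ] Hol b X F := liftL (coeL.comp (S : Z →ₗ[ℝ] Hol a X F)) (C + ‖S‖) (by positivity)
    (fun z x => ((S z).norm_apply_le x).trans ((S.le_opNorm z).trans (by gcongr; linarith)))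
    fun z x y => (h z x y).trans (by gcongr; linarith [norm_nonneg S])
  have : S = (inclL ha hab.le).comp T := by
    ext z x
    rfl
  rw [this]
  exact isCompactOperator_incl ha hab hK T hS

/-- functions that vanish outside `K` -/
def supp (a : ℝ) (K : Set X) (F : Type*) [NormedAddCommGroup F] [NormedSpace ℝ F] :
    Submodule ℝ (Hol a X F) where
  carrier := {f | ∀ x, x ∉ K → f x = 0}
  zero_mem' := fun _ _ => rfl
  add_mem' := fun {f g} hf hg x hx => by rw [add_apply, hf x hx, hg x hx, add_zero]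
  smul_mem' := fun c f hf x hx => by rw [smul_apply, hf x hx, smul_zero]

theorem mem_supp {K : Set X} {f : Hol a X F} : f ∈ supp a K F ↔ ∀ x, x ∉ K → f x = 0 := Iff.rfl

theorem isClosed_supp (K : Set X) : IsClosed (supp a K F : Set (Hol a X F)) := by
  have : (supp a K F : Set (Hol a X F)) = ⋂ x, ⋂ _ : x ∉ K, {f : Hol a X F | f x = 0} := by
    ext f
    simp only [mem_iInter]
    rfl
  rw [this]
  exact isClosed_iInter fun x => isClosed_iInter fun _ =>
    isClosed_eq (continuous_eval x) continuous_const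

instance [CompleteSpace F] (K : Set X) : CompleteSpace (supp a K F) :=
  (isClosed_supp K).completeSpace_coe

end Hol

/-- differentiable functions with bounded values and derivative are Hoelder -/
theorem IsHol.of_fderiv {a : ℝ} (ha : 0 ≤ a) (ha1 : a ≤ 1) {V F : Type*} [NormedAddCommGroup V]
    [NormedSpace ℝ V] [NormedAddCommGroup F] [NormedSpace ℝ F] {f : V → F} {C L : ℝ}
    (hf : Differentiable ℝ f) (h1 : ∀ x, ‖f x‖ ≤ C) (h2 : ∀ x, ‖fderiv ℝ f x‖ ≤ L) : IsHol a f :=
  IsHol.of_lipschitz ha ha1 (L := L) h1 fun x y => by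
    rw [dist_eq_norm]
    exact convex_univ.norm_image_sub_le_of_norm_fderiv_le (fun x _ => hf x) (fun x _ => h2 x)
      (mem_univ y) (mem_univ x)

/-- `C^1` functions with compact support are Hoelder -/
theorem IsHol.of_hasCompactSupport {a : ℝ} (ha : 0 ≤ a) (ha1 : a ≤ 1) {V F : Type*}
    [NormedAddCommGroup V] [NormedSpace ℝ V] [NormedAddCommGroup F] [NormedSpace ℝ F] {f : V → F}
    (hf : ContDiff ℝ 1 f) (hs : HasCompactSupport f) : IsHol a f := by
  obtain ⟨C, hC⟩ := hs.exists_bound_of_continuous hf.continuous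
  obtain ⟨L, hL⟩ := (hs.fderiv ℝ).exists_bound_of_continuous (hf.continuous_fderiv one_ne_zero)
  exact IsHol.of_fderiv ha ha1 (hf.differentiable one_ne_zero) hC hL

section fredholm
variable {E : Type*} [NormedAddCommGroup E] [NormedSpace ℝ E] [CompleteSpace E]
  {F : Type*} [NormedAddCommGroup F] [NormedSpace ℝ F]
  {P : Type*} [NormedAddCommGroup P] [NormedSpace ℝ P] [CompleteSpace P]

/-- invertible plus compact and injective is invertible -/
theorem isInvertible_of_compact (B : E ≃L[ℝ] F) (K L : E →L[ℝ] F) (hK : IsCompactOperator K)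
    (hL : ∀ x, L x = B x + K x) (hi : ∀ x, L x = 0 → x = 0) : L.IsInvertible := by
  let T : E →L[ℝ] E := (B.symm : F →L[ℝ] E).comp K
  have hT : IsCompactOperator T := hK.clm_comp (B.symm : F →L[ℝ] E)
  have e : ∀ x, B (T x + x) = L x := fun x => by
    simp only [T, map_add, ContinuousLinearMap.comp_apply, ContinuousLinearEquiv.coe_coe,
      ContinuousLinearEquiv.apply_symm_apply, hL, add_comm]
  rcases hT.hasEigenvalue_or_mem_resolventSet (μ := -1) (by norm_num) with h | h
  · obtain ⟨v, hv⟩ := h.exists_hasEigenvector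
    have h1 : T v = -v := by simpa using hv.apply_eq_smul
    exact absurd (hi v (by rw [← e, h1, neg_add_cancel, map_zero])) hv.2
  · rw [spectrum.mem_resolventSet_iff, ← IsUnit.neg_iff] at h
    obtain ⟨u, hu⟩ := h
    refine ⟨(ContinuousLinearEquiv.ofUnit u).trans B, ?_⟩
    ext x
    rw [← e]
    show B (u.1 x) = _
    rw [hu]
    simp [add_comm]

/-- implicit function theorem: the derivative in the second variable is invertible plus compact
and injective -/
theorem exists_implicit [CompleteSpace F] {f : P × E → F} {f' : P × E →L[ℝ] F} {u : P × E}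
    (hf : HasStrictFDerivAt f f' u) (B : E ≃L[ℝ] F) (K : E →L[ℝ] F) (hK : IsCompactOperator K)
    (hL : ∀ x, f' (0, x) = B x + K x) (hi : ∀ x, f' (0, x) = 0 → x = 0) :
    ∃ ψ : P → E, Tendsto ψ (𝓝 u.1) (𝓝 u.2) ∧ (∀ᶠ p in 𝓝 u.1, f (p, ψ p) = f u) ∧
      ∀ᶠ v in 𝓝 u, f v = f u ↔ ψ v.1 = v.2 := by
  have hinv : (f' ∘L .inr ℝ P E).IsInvertible := isInvertible_of_compact B K _ hK hL hi
  exact ⟨_, hf.tendsto_implicitFunctionOfProdDomain hinv,
    hf.eventually_apply_implicitFunctionOfProdDomain hinv,
    hf.eventually_apply_eq_iff_implicitFunctionOfProdDomain hinv⟩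

end fredholm

end

end Pool.Agent.Lib.MP_1c0d65_gt
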