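import Pool.Agent.Lib.MP_1c0d65_gt.Hol.Loc

/-! Functions that are Hoelder near a point, and functions with such a derivative. -/

namespace Pool.Agent.Lib.MP_1c0d65_gt

open Metric Set Filter Topology

noncomputable section

variable {a : ℝ} {V : Type*} [NormedAddCommGroup V] [NormedSpace ℝ V]
  {W : Type*} [NormedAddCommGroup W] [NormedSpace ℝ W]
  {Z : Type*} [NormedAddCommGroup Z] [NormedSpace ℝ Z]
  {E : Type*} [NormedAddCommGroup E] [NormedSpace ℝ E]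
  {F : Type*} [NormedAddCommGroup F] [NormedSpace ℝ F]
  {G : Type*} [NormedAddCommGroup G] [NormedSpace ℝ G]

/-- Hoelder near `x` -/
def LH (a : ℝ) {V : Type*} [NormedAddCommGroup V] {F : Type*} [NormedAddCommGroup F] (f : V → F)
    (x : V) : Prop := ∃ U ∈ 𝓝 x, IsHol a fun y : U => f y.1

namespace LH

omit [NormedSpace ℝ V] [NormedSpace ℝ F] in
theorem shrink {f : V → F} {U U' : Set V} (h : IsHol a fun y : U => f y.1) (hU : U' ⊆ U) :
    IsHol a fun y : U' => f y.1 := by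
  obtain ⟨C, h1, h2⟩ := h
  exact ⟨C, fun y => h1 ⟨y.1, hU y.2⟩, fun y z => h2 ⟨y.1, hU y.2⟩ ⟨z.1, hU z.2⟩⟩

omit [NormedSpace ℝ V] [NormedSpace ℝ F] in
theorem congr {f g : V → F} {x : V} (h : LH a f x) (e : g =ᶠ[𝓝 x] f) : LH a g x := by
  obtain ⟨U, hU, h⟩ := h
  refine ⟨_, inter_mem hU e, ?_⟩
  convert shrink h (inter_subset_left (t := {y | g y = f y})) using 2 with y
  exact y.2.2

omit [NormedSpace ℝ V] in
theorem bil (B : E →L[ℝ] F →L[ℝ] G) {f : V → E} {g : V → F} {x : V} (hf : LH a f x)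
    (hg : LH a g x) : LH a (fun y => B (f y) (g y)) x := by
  obtain ⟨U, hU, hf⟩ := hf
  obtain ⟨U', hU', hg⟩ := hg
  exact ⟨_, inter_mem hU hU', (shrink hf inter_subset_left).bil B (shrink hg inter_subset_right)⟩

omit [NormedSpace ℝ V] in
theorem add {f g : V → F} {x : V} (hf : LH a f x) (hg : LH a g x) :
    LH a (fun y => f y + g y) x := by
  obtain ⟨U, hU, hf⟩ := hf
  obtain ⟨U', hU', hg⟩ := hg
  exact ⟨_, inter_mem hU hU', (shrink hf inter_subset_left).add (shrink hg inter_subset_right)⟩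

omit [NormedSpace ℝ V] in
theorem clm (A : F →L[ℝ] G) {f : V → F} {x : V} (hf : LH a f x) : LH a (fun y => A (f y)) x := by
  obtain ⟨U, hU, hf⟩ := hf
  exact ⟨U, hU, hf.clm A⟩

theorem of_contDiffAt (ha : 0 ≤ a) (ha1 : a ≤ 1) {f : V → F} {x : V} (h : ContDiffAt ℝ 1 f x) :
    LH a f x := by
  obtain ⟨L, t, ht, hL⟩ := h.exists_lipschitzOnWith
  have hb : ∀ᶠ y in 𝓝 x, ‖f y‖ < ‖f x‖ + 1 :=
    h.continuousAt.norm.eventually (gt_mem_nhds (lt_add_one _))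
  refine ⟨_, inter_mem ht hb, IsHol.of_lipschitz ha ha1 (C := ‖f x‖ + 1) (L := L)
    (fun y => le_of_lt y.2.2) fun y z => ?_⟩
  rw [← dist_eq_norm]
  exact hL.dist_le_mul _ y.2.1 _ z.2.1

theorem comp (ha : 0 ≤ a) {f : W → F} {φ : V → W} {x : V} (hf : LH a f (φ x))
    (hφ : ContDiffAt ℝ 1 φ x) : LH a (fun y => f (φ y)) x := by
  obtain ⟨U, hU, hf⟩ := hf
  obtain ⟨L, t, ht, hL⟩ := hφ.exists_lipschitzOnWith
  refine ⟨_, inter_mem ht (hφ.continuousAt.preimage_mem_nhds hU), ?_⟩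
  exact hf.comp ha (φ := fun y : ↥(t ∩ φ ⁻¹' U) => (⟨φ y.1, y.2.2⟩ : U)) (L := L)
    (LipschitzWith.of_dist_le_mul fun y z => hL.dist_le_mul _ y.2.1 _ z.2.1)

omit [NormedSpace ℝ V] [NormedSpace ℝ F] in
/-- a continuous function with a Hoelder bound -/
theorem of_bound {f : V → F} {x : V} {H : ℝ} (hc : ContinuousAt f x)
    (h : ∀ᶠ p : V × V in 𝓝 x ×ˢ 𝓝 x, ‖f p.1 - f p.2‖ ≤ H * dist p.1 p.2 ^ a) : LH a f x := by
  obtain ⟨U, hU, h⟩ := (eventually_prod_self_iff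
    (r := fun y z => ‖f y - f z‖ ≤ H * dist y z ^ a)).1 h
  have hb : ∀ᶠ y in 𝓝 x, ‖f y‖ < ‖f x‖ + 1 := hc.norm.eventually (gt_mem_nhds (lt_add_one _))
  refine ⟨_, inter_mem hU hb, max (‖f x‖ + 1) H, fun y => (le_of_lt y.2.2).trans (le_max_left _ _),
    fun y z => (h _ y.2.1 _ z.2.1).trans ?_⟩
  exact mul_le_mul_of_nonneg_right (le_max_right _ _) (by positivity)

omit [NormedSpace ℝ V] in
theorem isHol (ha : 0 ≤ a) {D : Set V} (hD : IsCompact D) {f : V → F} (h : ∀ x ∈ D, LH a f x) :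
    IsHol a fun x : D => f x.1 := by
  have : CompactSpace D := isCompact_iff_compactSpace.1 hD
  refine IsHol.of_locally ha fun x => ?_
  obtain ⟨U, hU, C, h1, h2⟩ := h x.1 x.2
  exact ⟨_, continuous_subtype_val.continuousAt.preimage_mem_nhds hU, C, fun y hy =>
    ⟨h1 ⟨y.1, hy⟩, fun z hz => h2 ⟨y.1, hy⟩ ⟨z.1, hz⟩⟩⟩

end LH

omit [NormedSpace ℝ V] [NormedSpace ℝ F] in
theorem IsHol.lh {f : V → F} (h : IsHol a f) (x : V) : LH a f x := by
  obtain ⟨C, h1, h2⟩ := h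
  exact ⟨univ, univ_mem, C, fun y => h1 y.1, fun y z => h2 y.1 z.1⟩

/-- of class `C^1` with Hoelder derivative near `x` -/
def C1H (a : ℝ) (f : V → F) (x : V) : Prop := ContDiffAt ℝ 1 f x ∧ LH a (fderiv ℝ f) x

namespace C1H

theorem ev {f : V → F} {x : V} (h : ContDiffAt ℝ 1 f x) : ∀ᶠ y in 𝓝 x, DifferentiableAt ℝ f y :=
  (h.eventually (by simp)).mono fun _ hy => hy.differentiableAt one_ne_zero

theorem congr {f g : V → F} {x : V} (h : C1H a f x) (e : g =ᶠ[𝓝 x] f) : C1H a g x :=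
  ⟨h.1.congr_of_eventuallyEq e, h.2.congr e.fderiv⟩

theorem of_contDiffAt (ha : 0 ≤ a) (ha1 : a ≤ 1) {f : V → F} {x : V} (h : ContDiffAt ℝ 2 f x) :
    C1H a f x :=
  ⟨h.of_le one_le_two, LH.of_contDiffAt ha ha1 (h.fderiv_right (by norm_num))⟩

theorem add {f g : V → F} {x : V} (hf : C1H a f x) (hg : C1H a g x) :
    C1H a (fun y => f y + g y) x := by
  refine ⟨hf.1.add hg.1, (hf.2.add hg.2).congr ?_⟩
  filter_upwards [ev hf.1, ev hg.1] with y h1 h2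
  exact fderiv_fun_add h1 h2

theorem comp (ha : 0 ≤ a) {f : W → F} {φ : V → W} {x : V} (hf : C1H a f (φ x))
    (hφ : C1H a φ x) : C1H a (fun y => f (φ y)) x := by
  refine ⟨hf.1.comp x hφ.1,
    ((hf.2.comp ha hφ.1).bil (ContinuousLinearMap.compL ℝ V W F) hφ.2).congr ?_⟩
  filter_upwards [ev hφ.1, hφ.1.continuousAt.eventually (ev hf.1)] with y h1 h2
  exact fderiv_comp y h2 h1

theorem clm (ha : 0 ≤ a) (ha1 : a ≤ 1) (A : F →L[ℝ] G) {f : V → F} {x : V} (hf : C1H a f x) :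
    C1H a (fun y => A (f y)) x :=
  (of_contDiffAt ha ha1 A.contDiff.contDiffAt).comp ha hf

theorem prod (ha : 0 ≤ a) (ha1 : a ≤ 1) {f : V → E} {g : V → F} {x : V} (hf : C1H a f x)
    (hg : C1H a g x) : C1H a (fun y => (f y, g y)) x := by
  have := (hf.clm ha ha1 (.inl ℝ E F)).add (hg.clm ha ha1 (.inr ℝ E F))
  simpa using this

end C1H

/-- the derivative of a family of operators that is differentiable pointwise -/
theorem exists_fderiv_clm [CompleteSpace Z] [FiniteDimensional ℝ V] (Ξ : V → Z →L[ℝ] F) (x : V)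
    (h : ∀ ζ, DifferentiableAt ℝ (fun y => Ξ y ζ) x) :
    ∃ A : Z →L[ℝ] V →L[ℝ] F, ∀ ζ, A ζ = fderiv ℝ (fun y => Ξ y ζ) x := by
  refine ⟨⟨⟨⟨fun ζ => fderiv ℝ (fun y => Ξ y ζ) x, fun ζ ζ' => ?_⟩, fun c ζ => ?_⟩, ?_⟩,
    fun _ => rfl⟩
  · simp only [map_add]
    exact fderiv_fun_add (h ζ) (h ζ')
  · simp only [map_smul]
    exact fderiv_fun_const_smul (h ζ) c
  · refine continuous_clm_apply.2 fun v => ?_
    exact (continuousLinearMapOfTendsto (l := atTop) (fun c : ℝ => c • (Ξ (x + c⁻¹ • v) - Ξ x))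
      (f := fun ζ => fderiv ℝ (fun y => Ξ y ζ) x v)
      (tendsto_pi_nhds.2 fun ζ => (h ζ).hasFDerivAt.lim_real v)).continuous

/-- values and derivatives as operators into Hoelder spaces -/
theorem exists_val_der [CompleteSpace Z] [FiniteDimensional ℝ V] [FiniteDimensional ℝ F]
    (ha : 0 ≤ a) (ha1 : a < 1) {D : Set V} (hD : IsCompact D) (Ξ : V → Z →L[ℝ] F)
    (h : ∀ ζ, ∀ x ∈ D, C1H a (fun y => Ξ y ζ) x) :
    ∃ (Val : Z →L[ℝ] Hol a D F) (Der : Z →L[ℝ] Hol a D (V →L[ℝ] F)), IsCompactOperator Val ∧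
      (∀ ζ x, Val ζ x = Ξ x.1 ζ) ∧ ∀ ζ x, Der ζ x = fderiv ℝ (fun y => Ξ y ζ) x.1 := by
  have := FiniteDimensional.complete ℝ F
  have : CompactSpace D := isCompact_iff_compactSpace.1 hD
  choose A hA using fun x : D => exists_fderiv_clm Ξ x.1 fun ζ =>
    (h ζ x.1 x.2).1.differentiableAt one_ne_zero
  refine ⟨Hol.liftC (LinearMap.pi fun x : D => (Ξ x.1 : Z →ₗ[ℝ] F))
      (fun ζ => IsHol.of_contDiffAt ha ha1.le hD fun x hx => (h ζ x hx).1)
      fun x => (Ξ x.1).continuous,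
    Hol.liftC (LinearMap.pi fun x : D => (A x : Z →ₗ[ℝ] V →L[ℝ] F)) (fun ζ => ?_)
      fun x => (A x).continuous, ?_, fun _ _ => rfl, fun ζ x => hA x ζ⟩
  · convert LH.isHol ha hD fun x hx => (h ζ x hx).2 using 2 with x
    exact hA x ζ
  · exact Hol.isCompactOperator_of_isHol ha ha1 isCompact_univ _
      (fun _ x hx => absurd (mem_univ x) hx)
      fun ζ => IsHol.of_contDiffAt zero_le_one le_rfl hD fun x hx => (h ζ x hx).1

end

end Pool.Agent.Lib.MP_1c0d65_gt
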