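import Pool.Agent.Lib.MP_1c0d65_gt.Hol.Basic

/-! Composition operators on Hoelder spaces are smooth. -/

namespace Pool.Agent.Lib.MP_1c0d65_gt

open Metric Set Filter Topology
open scoped ContDiff

noncomputable section

namespace Hol

universe u

variable {a : ℝ} {X : Type*} [MetricSpace X]
  {E : Type*} [NormedAddCommGroup E] [NormedSpace ℝ E]
  {F : Type*} [NormedAddCommGroup F] [NormedSpace ℝ F]

open Classical in
/-- the composition operator `f ↦ Φ ∘ f` -/
def nem (Φ : E → F) (f : Hol a X E) : Hol a X F :=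
  if h : IsHol a fun x => Φ (f x) then mk _ h else 0

theorem nem_apply_of {Φ : E → F} {f : Hol a X E} (h : IsHol a fun x => Φ (f x)) (x : X) :
    nem Φ f x = Φ (f x) := by
  rw [nem, dif_pos h, mk_apply]

theorem nem_congr {Φ Ψ : E → F} {f : Hol a X E} (h : ∀ x, Φ (f x) = Ψ (f x)) :
    nem Φ f = nem Ψ f := by
  have e : (fun x => Φ (f x)) = fun x => Ψ (f x) := funext h
  by_cases h1 : IsHol a fun x => Φ (f x)
  · ext x
    rw [nem_apply_of h1, nem_apply_of (e ▸ h1), h]
  · rw [nem, nem, dif_neg h1, dif_neg (e ▸ h1)]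

variable [FiniteDimensional ℝ E]

theorem exists_bound {Φ : E → F} (h : Continuous Φ) (R : ℝ) :
    ∃ M, 0 ≤ M ∧ ∀ p, ‖p‖ ≤ R → ‖Φ p‖ ≤ M := by
  have := FiniteDimensional.proper_real E
  obtain ⟨M, hM⟩ := (isCompact_closedBall (0 : E) R).exists_bound_of_continuousOn h.continuousOn
  exact ⟨max M 0, le_max_right _ _, fun p hp =>
    (hM p (mem_closedBall_zero_iff.2 hp)).trans (le_max_left _ _)⟩

theorem exists_lip {Φ : E → F} (h : ContDiff ℝ 1 Φ) (R : ℝ) :
    ∃ M, 0 ≤ M ∧ (∀ p, ‖p‖ ≤ R → ‖fderiv ℝ Φ p‖ ≤ M) ∧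
      ∀ p q, ‖p‖ ≤ R → ‖q‖ ≤ R → ‖Φ p - Φ q‖ ≤ M * ‖p - q‖ := by
  obtain ⟨M, h0, hM⟩ := exists_bound (h.continuous_fderiv one_ne_zero) R
  refine ⟨M, h0, hM, fun p q hp hq => ?_⟩
  exact (convex_closedBall (0 : E) R).norm_image_sub_le_of_norm_fderiv_le
    (fun x _ => h.differentiable one_ne_zero x) (fun x hx => hM x (mem_closedBall_zero_iff.1 hx))
    (mem_closedBall_zero_iff.2 hq) (mem_closedBall_zero_iff.2 hp)

theorem isHol_comp {Φ : E → F} (h : ContDiff ℝ 1 Φ) (f : Hol a X E) :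
    IsHol a fun x => Φ (f x) := by
  obtain ⟨M, h0, hM⟩ := exists_bound h.continuous ‖f‖
  obtain ⟨L, l0, -, hL⟩ := exists_lip h ‖f‖
  refine ⟨max M (L * ‖f‖), fun x => (hM _ (f.norm_apply_le x)).trans (le_max_left _ _),
    fun x y => (hL _ _ (f.norm_apply_le x) (f.norm_apply_le y)).trans ?_⟩
  calc L * ‖f x - f y‖ ≤ L * (‖f‖ * dist x y ^ a) := by gcongr; exact f.norm_sub_le x y
    _ = L * ‖f‖ * dist x y ^ a := by ring
    _ ≤ _ := by gcongr; exact le_max_right _ _

theorem nem_apply {Φ : E → F} (h : ContDiff ℝ 1 Φ) (f : Hol a X E) (x : X) :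
    nem Φ f x = Φ (f x) := nem_apply_of (isHol_comp h f) x

omit [FiniteDimensional ℝ E] in
theorem mv01 {φ φ' : ℝ → F} {C : ℝ} (h : ∀ t, HasDerivAt φ (φ' t) t)
    (hC : ∀ t ∈ Icc (0 : ℝ) 1, ‖φ' t‖ ≤ C) : ‖φ 1 - φ 0‖ ≤ C :=
  norm_image_sub_le_of_norm_deriv_le_segment_01' (fun t _ => (h t).hasDerivWithinAt)
    fun t ht => hC t (Ico_subset_Icc_self ht)

omit [FiniteDimensional ℝ E] in
theorem hasDerivAt_line {Φ : E → F} (h : Differentiable ℝ Φ) (p v : E) (t : ℝ) :
    HasDerivAt (fun s : ℝ => Φ (p + s • v)) (fderiv ℝ Φ (p + t • v) v) t := by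
  have h1 : HasDerivAt (fun s : ℝ => p + s • v) v t := by
    simpa using ((hasDerivAt_id t).smul_const v).const_add p
  exact (h _).hasFDerivAt.comp_hasDerivAt t h1

theorem nem_lip {Φ : E → F} (h : ContDiff ℝ 2 Φ) (R : ℝ) : ∃ C, 0 ≤ C ∧ ∀ f v : Hol a X E,
    ‖f‖ + ‖v‖ ≤ R → ‖nem Φ (f + v) - nem Φ f‖ ≤ C * ‖v‖ := by
  have h1 : ContDiff ℝ 1 Φ := h.of_le (by norm_num)
  have hd : ContDiff ℝ 1 (fderiv ℝ Φ) := h.fderiv_right (by norm_num)
  obtain ⟨M, m0, hM⟩ := exists_bound hd.continuous R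
  obtain ⟨L, l0, -, hL⟩ := exists_lip hd R
  refine ⟨2 * (M + L * |R|), by positivity, fun f v hR => ?_⟩
  have hn : ∀ t ∈ Icc (0 : ℝ) 1, ‖f + t • v‖ ≤ R := fun t ht => by
    refine (norm_add_le _ _).trans (le_trans ?_ hR)
    rw [norm_smul, Real.norm_of_nonneg ht.1]
    nlinarith [ht.2, norm_nonneg v]
  have hA : ∀ t ∈ Icc (0 : ℝ) 1, ‖appL (nem (fderiv ℝ Φ) (f + t • v)) v‖ ≤
      2 * (M + L * |R|) * ‖v‖ := fun t ht => by
    refine (norm_appL_le _ _).trans ?_
    gcongr
    have hx := fun x => ((f + t • v).norm_apply_le x).trans (hn t ht)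
    refine norm_le (by positivity) (fun x => ?_) fun x y => ?_
    · rw [nem_apply hd]
      exact (hM _ (hx x)).trans (le_add_of_nonneg_right (by positivity))
    · rw [nem_apply hd, nem_apply hd]
      refine (hL _ _ (hx x) (hx y)).trans ?_
      calc L * ‖(f + t • v) x - (f + t • v) y‖ ≤ L * (|R| * dist x y ^ a) := by
            gcongr
            refine ((f + t • v).norm_sub_le x y).trans ?_
            gcongr
            exact (hn t ht).trans (le_abs_self R)
        _ = L * |R| * dist x y ^ a := by ring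
        _ ≤ _ := by gcongr; exact le_add_of_nonneg_left m0
  have hl := fun x => hasDerivAt_line (h1.differentiable one_ne_zero) (f x) (v x)
  refine norm_le (by positivity) (fun x => ?_) fun x y => ?_
  · have := mv01 (hl x) fun t ht => by
      have := ((appL (nem (fderiv ℝ Φ) (f + t • v)) v).norm_apply_le x).trans (hA t ht)
      rwa [appL_apply, nem_apply hd] at this
    simpa [nem_apply h1] using this
  · have := mv01 (C := 2 * (M + L * |R|) * ‖v‖ * dist x y ^ a)
      (fun t => (hl x t).sub (hl y t)) fun t ht => by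
      have := ((appL (nem (fderiv ℝ Φ) (f + t • v)) v).norm_sub_le x y).trans
        (mul_le_mul_of_nonneg_right (hA t ht) (by positivity))
      rwa [appL_apply, appL_apply, nem_apply hd, nem_apply hd] at this
    simp only [sub_apply, nem_apply h1, add_apply]
    simp only [Pi.sub_apply, one_smul, zero_smul, add_zero] at this
    convert this using 2
    abel

theorem hasFDerivAt_nem {Φ : E → F} (h : ContDiff ℝ 3 Φ) (f : Hol a X E) :
    HasFDerivAt (nem Φ : Hol a X E → Hol a X F) (appL (nem (fderiv ℝ Φ) f)) f := by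
  have h1 : ContDiff ℝ 1 Φ := h.of_le (by norm_num)
  have hd : ContDiff ℝ 2 (fderiv ℝ Φ) := h.fderiv_right (by norm_num)
  have hd1 : ContDiff ℝ 1 (fderiv ℝ Φ) := hd.of_le (by norm_num)
  obtain ⟨C, c0, hC⟩ := nem_lip (a := a) (X := X) hd (‖f‖ + 1)
  have key : ∀ v : Hol a X E, ‖v‖ ≤ 1 →
      ‖nem Φ (f + v) - nem Φ f - appL (nem (fderiv ℝ Φ) f) v‖ ≤ 2 * C * ‖v‖ * ‖v‖ := by
    intro v hv
    have hA : ∀ t ∈ Icc (0 : ℝ) 1, ‖appL (nem (fderiv ℝ Φ) (f + t • v) - nem (fderiv ℝ Φ) f) v‖ ≤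
        2 * C * ‖v‖ * ‖v‖ := fun t ht => by
      have ht' : ‖t • v‖ ≤ ‖v‖ := by
        rw [norm_smul, Real.norm_of_nonneg ht.1]
        nlinarith [ht.2, norm_nonneg v]
      refine (norm_appL_le _ _).trans ?_
      rw [mul_assoc 2 C]
      gcongr
      exact (hC f (t • v) (by linarith)).trans (by gcongr)
    have hl : ∀ x t, HasDerivAt (fun s : ℝ => Φ (f x + s • v x) - s • fderiv ℝ Φ (f x) (v x))
        (appL (nem (fderiv ℝ Φ) (f + t • v) - nem (fderiv ℝ Φ) f) v x) t := fun x t => by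
      have := (hasDerivAt_line (h1.differentiable one_ne_zero) (f x) (v x) t).sub
        ((hasDerivAt_id t).smul_const (fderiv ℝ Φ (f x) (v x)))
      simp only [appL_apply, sub_apply, nem_apply hd1, add_apply, smul_apply,
        _root_.sub_apply]
      rw [one_smul] at this
      exact this
    refine norm_le (by positivity) (fun x => ?_) fun x y => ?_
    · have := mv01 (hl x) fun t ht => (norm_apply_le _ x).trans (hA t ht)
      simp only [sub_apply, nem_apply h1, add_apply, appL_apply, nem_apply hd1]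
      simp only [one_smul, zero_smul, add_zero, sub_zero] at this
      convert this using 2
      abel
    · have := mv01 (C := 2 * C * ‖v‖ * ‖v‖ * dist x y ^ a) (fun t => (hl x t).sub (hl y t))
        fun t ht => (norm_sub_le _ x y).trans (mul_le_mul_of_nonneg_right (hA t ht) (by positivity))
      simp only [sub_apply, nem_apply h1, add_apply, appL_apply, nem_apply hd1]
      simp only [Pi.sub_apply, one_smul, zero_smul, add_zero, sub_zero] at this
      convert this using 2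
      abel
  rw [hasFDerivAt_iff_isLittleO_nhds_zero, Asymptotics.isLittleO_iff]
  intro c hc
  have hpos : 0 < min 1 (c / (2 * C + 1)) := lt_min one_pos (by positivity)
  filter_upwards [closedBall_mem_nhds (0 : Hol a X E) hpos] with v hv
  rw [mem_closedBall_zero_iff, le_min_iff, le_div_iff₀ (by positivity)] at hv
  refine (key v hv.1).trans ?_
  gcongr
  nlinarith [hv.2, norm_nonneg v]

theorem continuous_nem {Φ : E → F} (h : ContDiff ℝ 3 Φ) :
    Continuous (nem Φ : Hol a X E → Hol a X F) :=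
  continuous_iff_continuousAt.2 fun f => (hasFDerivAt_nem h f).continuousAt

theorem contDiff_one_nem {Φ : E → F} (h : ContDiff ℝ 4 Φ) :
    ContDiff ℝ 1 (nem Φ : Hol a X E → Hol a X F) := by
  have h3 : ContDiff ℝ 3 Φ := h.of_le (by norm_num)
  refine contDiff_one_iff_hasFDerivAt.2 ⟨_, ?_, hasFDerivAt_nem h3⟩
  exact appL.continuous.comp (continuous_nem (h.fderiv_right (by norm_num)))

theorem contDiff_nem_nat {E : Type u} [NormedAddCommGroup E] [NormedSpace ℝ E]
    [FiniteDimensional ℝ E] (n : ℕ) : ∀ {F : Type u} [NormedAddCommGroup F] [NormedSpace ℝ F]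
    {Φ : E → F}, ContDiff ℝ ∞ Φ → ContDiff ℝ n (nem Φ : Hol a X E → Hol a X F) := by
  induction n with
  | zero =>
    intro F _ _ Φ h
    exact contDiff_zero.2 (continuous_nem (contDiff_infty.1 h 3))
  | succ n ih =>
    intro F _ _ Φ h
    refine contDiff_succ_iff_hasFDerivAt.2
      ⟨_, ?_, hasFDerivAt_nem (contDiff_infty.1 h 3)⟩
    exact appL.contDiff.comp (ih (h.fderiv_right (m := ∞) (by simp)))

theorem contDiff_nem {E : Type u} [NormedAddCommGroup E] [NormedSpace ℝ E]
    [FiniteDimensional ℝ E] {F : Type u} [NormedAddCommGroup F] [NormedSpace ℝ F]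
    {Φ : E → F} (h : ContDiff ℝ ∞ Φ) : ContDiff ℝ ∞ (nem Φ : Hol a X E → Hol a X F) :=
  contDiff_infty.2 fun n => contDiff_nem_nat n h

/-- a function that is smooth near a compact set agrees near it with a globally smooth one -/
theorem exists_global {n : ℕ∞} {Φ : E → F} {U K : Set E} (hU : IsOpen U) (hK : IsCompact K)
    (hKU : K ⊆ U) (h : ContDiffOn ℝ n Φ U) :
    ∃ Ψ : E → F, ContDiff ℝ n Ψ ∧ ∃ δ > 0, ∀ p ∈ thickening δ K, p ∈ U ∧ Ψ p = Φ p := by
  have := FiniteDimensional.proper_real E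
  obtain ⟨δ, hδ, hs⟩ := hK.exists_cthickening_subset_open hU hKU
  obtain ⟨χ, c1, c2, c3⟩ := exists_contMDiff_support_eq_eq_one_iff (n := n) (modelWithCornersSelf ℝ E)
    (isOpen_thickening (δ := δ) (E := K)) (isClosed_cthickening (δ := δ / 2) (E := K))
    (cthickening_subset_thickening' hδ (by linarith) K)
  have c1' : ContDiff ℝ n χ := c1.contDiff
  refine ⟨fun p => χ p • Φ p, contDiff_iff_contDiffAt.2 fun p => ?_, δ / 2, by positivity,
    fun p hp => ⟨hs (cthickening_mono (by linarith) K (thickening_subset_cthickening _ _ hp)), ?_⟩⟩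
  · by_cases hp : p ∈ U
    · exact c1'.contDiffAt.smul (h.contDiffAt (hU.mem_nhds hp))
    · have : (cthickening δ K)ᶜ ∈ 𝓝 p := isClosed_cthickening.isOpen_compl.mem_nhds fun h' =>
        hp (hs h')
      refine (contDiffAt_const (c := (0 : F))).congr_of_eventuallyEq ?_
      filter_upwards [this] with q hq
      have : χ q = 0 := by
        by_contra h0
        have : q ∈ Function.support χ := h0
        rw [c3.1] at this
        exact hq (thickening_subset_cthickening _ _ this)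
      rw [this, zero_smul]
  · show χ p • Φ p = Φ p
    rw [(c3.2 p).1 (thickening_subset_cthickening _ _ hp), one_smul]

omit [FiniteDimensional ℝ E] in
theorem eventually_thickening {K : Set E} {f : Hol a X E} (hf : ∀ x, f x ∈ K) {δ : ℝ} (hδ : 0 < δ) :
    ∀ᶠ g in 𝓝 f, ∀ x, (g : Hol a X E) x ∈ thickening δ K := by
  filter_upwards [ball_mem_nhds f hδ] with g hg x
  refine mem_thickening_iff.2 ⟨f x, hf x, ?_⟩
  rw [dist_eq_norm]
  exact ((g - f).norm_apply_le x).trans_lt (mem_ball_iff_norm.1 hg)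

/-- the local form: `Φ` is smooth on an open set that contains a compact set with the values
of `f` -/
theorem nem_local {Φ : E → F} {U K : Set E} (hU : IsOpen U) (hK : IsCompact K) (hKU : K ⊆ U)
    (h : ContDiffOn ℝ 4 Φ U) {f : Hol a X E} (hf : ∀ x, f x ∈ K) :
    (∀ᶠ g in 𝓝 f, ∀ x, (g : Hol a X E) x ∈ U ∧ nem Φ g x = Φ (g x)) ∧
      ContDiffAt ℝ 1 (nem Φ : Hol a X E → Hol a X F) f ∧
      (∀ x, nem (fderiv ℝ Φ) f x = fderiv ℝ Φ (f x)) ∧
      HasStrictFDerivAt (nem Φ : Hol a X E → Hol a X F) (appL (nem (fderiv ℝ Φ) f)) f := by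
  obtain ⟨Ψ, hΨ, δ, hδ, hp⟩ := exists_global (n := 4) hU hK hKU h
  have hΨ4 : ContDiff ℝ 4 Ψ := hΨ
  have he := eventually_thickening hf hδ
  have h1 : (nem Φ : Hol a X E → Hol a X F) =ᶠ[𝓝 f] nem Ψ := by
    filter_upwards [he] with g hg
    exact nem_congr fun x => (hp _ (hg x)).2.symm
  have h2 : ∀ x, fderiv ℝ Φ (f x) = fderiv ℝ Ψ (f x) := fun x => by
    refine EventuallyEq.fderiv_eq ?_
    filter_upwards [isOpen_thickening.mem_nhds (he.self_of_nhds x)] with p hp'
    exact (hp p hp').2.symm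
  have h3 : ContDiffAt ℝ 1 (nem Φ : Hol a X E → Hol a X F) f :=
    (contDiff_one_nem hΨ4).contDiffAt.congr_of_eventuallyEq h1
  refine ⟨?_, h3, fun x => ?_, ?_⟩
  · filter_upwards [he, h1] with g hg hg' x
    rw [hg', nem_apply (hΨ4.of_le (by norm_num))]
    exact hp _ (hg x)
  · rw [nem_congr h2, nem_apply (hΨ4.fderiv_right (by norm_num)), h2]
  · refine h3.hasStrictFDerivAt' ?_ one_ne_zero
    rw [nem_congr h2]
    exact (hasFDerivAt_nem (hΨ4.of_le (by norm_num)) f).congr_of_eventuallyEq h1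

theorem contDiffAt_nem {E : Type u} [NormedAddCommGroup E] [NormedSpace ℝ E]
    [FiniteDimensional ℝ E] {F : Type u} [NormedAddCommGroup F] [NormedSpace ℝ F]
    {Φ : E → F} {U K : Set E} (hU : IsOpen U) (hK : IsCompact K) (hKU : K ⊆ U)
    (h : ContDiffOn ℝ ∞ Φ U) {f : Hol a X E} (hf : ∀ x, f x ∈ K) :
    ContDiffAt ℝ ∞ (nem Φ : Hol a X E → Hol a X F) f := by
  obtain ⟨Ψ, hΨ, δ, hδ, hp⟩ := exists_global (n := ⊤) hU hK hKU h
  refine (contDiff_nem hΨ).contDiffAt.congr_of_eventuallyEq ?_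
  filter_upwards [eventually_thickening hf hδ] with g hg
  exact nem_congr fun x => (hp _ (hg x)).2.symm

theorem isCompact_range [CompactSpace X] (ha : 0 < a) (f : Hol a X F) : IsCompact (range f) :=
  _root_.isCompact_range (f.continuous ha)

end Hol

end

end Pool.Agent.Lib.MP_1c0d65_gt
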