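import Mathlib

/-! The Banach space of bounded Hoelder functions on a metric space. -/

namespace Pool.Agent.Lib.MP_1c0d65_gt

open scoped ENNReal

noncomputable section

/-- `f` is bounded and Hoelder with exponent `a` -/
def IsHol (a : ℝ) {X : Type*} [MetricSpace X] {F : Type*} [NormedAddCommGroup F] (f : X → F) :
    Prop :=
  ∃ C : ℝ, (∀ x, ‖f x‖ ≤ C) ∧ ∀ x y, ‖f x - f y‖ ≤ C * dist x y ^ a

/-- values together with difference quotients -/
def holSub (a : ℝ) (X : Type*) [MetricSpace X] (F : Type*) [NormedAddCommGroup F]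
    [NormedSpace ℝ F] : Submodule ℝ (lp (fun _ : X ⊕ X × X => F) ∞) where
  carrier := {u | ∀ x y, u (.inr (x, y)) = (dist x y ^ a)⁻¹ • (u (.inl x) - u (.inl y))}
  zero_mem' := fun x y => by simp
  add_mem' := fun {u v} hu hv x y => by
    simp only [lp.coeFn_add, Pi.add_apply, hu x y, hv x y, ← smul_add]
    congr 1
    abel
  smul_mem' := fun c u hu x y => by
    simp only [lp.coeFn_smul, Pi.smul_apply, hu x y, ← smul_sub]
    exact smul_comm _ _ _

/-- bounded Hoelder functions; the norm is the maximum of the supremum and the seminorm -/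
def Hol (a : ℝ) (X : Type*) [MetricSpace X] (F : Type*) [NormedAddCommGroup F]
    [NormedSpace ℝ F] : Type _ := holSub a X F

namespace Hol

variable {a : ℝ} {X : Type*} [MetricSpace X] {Y : Type*} [MetricSpace Y]
  {E : Type*} [NormedAddCommGroup E] [NormedSpace ℝ E]
  {F : Type*} [NormedAddCommGroup F] [NormedSpace ℝ F]
  {G : Type*} [NormedAddCommGroup G] [NormedSpace ℝ G]

instance : NormedAddCommGroup (Hol a X F) := inferInstanceAs (NormedAddCommGroup (holSub a X F))

instance : NormedSpace ℝ (Hol a X F) := inferInstanceAs (NormedSpace ℝ (holSub a X F))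

/-- the underlying function -/
@[coe] def toFun (f : Hol a X F) : X → F := fun x => (f : holSub a X F).1 (.inl x)

instance : CoeFun (Hol a X F) (fun _ => X → F) := ⟨toFun⟩

instance [CompleteSpace F] : CompleteSpace (Hol a X F) := by
  refine IsClosed.completeSpace_coe (s := (holSub a X F : Set (lp (fun _ : X ⊕ X × X => F) ∞)))
    (hs := ?_)
  have : (holSub a X F : Set (lp (fun _ : X ⊕ X × X => F) ∞)) = ⋂ x, ⋂ y,
      {u | u (.inr (x, y)) = (dist x y ^ a)⁻¹ • (u (.inl x) - u (.inl y))} := by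
    ext u
    simp only [Set.mem_iInter]
    rfl
  rw [this]
  have hc : ∀ i, Continuous fun u : lp (fun _ : X ⊕ X × X => F) ∞ => u i := fun i =>
    (lp.lipschitzWith_one_eval ∞ i).continuous
  exact isClosed_iInter fun x => isClosed_iInter fun y =>
    isClosed_eq (hc _) (((hc _).sub (hc _)).const_smul _)

@[ext] theorem ext {f g : Hol a X F} (h : ∀ x, f x = g x) : f = g := by
  refine Subtype.ext (lp.ext (funext fun i => ?_))
  rcases i with x | ⟨x, y⟩
  · exact h x
  · rw [f.2 x y, g.2 x y]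
    exact congrArg _ (congrArg₂ _ (h x) (h y))

@[simp] theorem add_apply (f g : Hol a X F) (x : X) : (f + g) x = f x + g x := rfl
@[simp] theorem sub_apply (f g : Hol a X F) (x : X) : (f - g) x = f x - g x := rfl
@[simp] theorem neg_apply (f : Hol a X F) (x : X) : (-f) x = -f x := rfl
@[simp] theorem zero_apply (x : X) : (0 : Hol a X F) x = 0 := rfl
@[simp] theorem smul_apply (c : ℝ) (f : Hol a X F) (x : X) : (c • f) x = c • f x := rfl

theorem norm_apply_le (f : Hol a X F) (x : X) : ‖f x‖ ≤ ‖f‖ :=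
  lp.norm_apply_le_norm ENNReal.top_ne_zero (f : holSub a X F).1 (.inl x)

theorem norm_sub_le (f : Hol a X F) (x y : X) : ‖f x - f y‖ ≤ ‖f‖ * dist x y ^ a := by
  rcases eq_or_ne x y with rfl | h
  · rw [sub_self, norm_zero]
    positivity
  have hd : 0 < dist x y ^ a := Real.rpow_pos_of_pos (dist_pos.2 h) a
  have h1 := lp.norm_apply_le_norm ENNReal.top_ne_zero (f : holSub a X F).1 (.inr (x, y))
  rw [f.2 x y, norm_smul, norm_inv, Real.norm_of_nonneg hd.le, inv_mul_le_iff₀ hd, mul_comm] at h1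
  exact h1

theorem isHol (f : Hol a X F) : IsHol a f := ⟨‖f‖, f.norm_apply_le, f.norm_sub_le⟩

theorem quot_le {v : F} {C d : ℝ} (hC : 0 ≤ C) (hd : 0 ≤ d) (h : ‖v‖ ≤ C * d) : ‖d⁻¹ • v‖ ≤ C := by
  rcases hd.eq_or_lt with rfl | hd
  · simpa using hC
  · rw [norm_smul, norm_inv, Real.norm_of_nonneg hd.le, inv_mul_le_iff₀ hd, mul_comm]
    exact h

theorem norm_le {f : Hol a X F} {C : ℝ} (hC : 0 ≤ C) (h1 : ∀ x, ‖f x‖ ≤ C)
    (h2 : ∀ x y, ‖f x - f y‖ ≤ C * dist x y ^ a) : ‖f‖ ≤ C := by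
  refine lp.norm_le_of_forall_le (f := (f : holSub a X F).1) hC fun i => ?_
  rcases i with x | ⟨x, y⟩
  · exact h1 x
  · rw [f.2 x y]
    exact quot_le hC (by positivity) (h2 x y)

/-- a bounded Hoelder function as an element of the space -/
def mk (f : X → F) (h : IsHol a f) : Hol a X F :=
  ⟨⟨Sum.elim f fun p => (dist p.1 p.2 ^ a)⁻¹ • (f p.1 - f p.2), by
    obtain ⟨C, h1, h2⟩ := h
    refine memℓp_infty ⟨C, ?_⟩
    rintro _ ⟨i, rfl⟩
    rcases i with x | ⟨x, y⟩
    · exact h1 x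
    · exact quot_le ((norm_nonneg _).trans (h1 x)) (by positivity) (h2 x y)⟩, fun _ _ => rfl⟩

@[simp] theorem mk_apply (f : X → F) (h : IsHol a f) (x : X) : mk f h x = f x := rfl

@[simp] theorem coe_mk (f : X → F) (h : IsHol a f) : (mk f h : X → F) = f := rfl

theorem continuous (ha : 0 < a) (f : Hol a X F) : Continuous f := by
  refine continuous_iff_continuousAt.2 fun x => tendsto_iff_norm_sub_tendsto_zero.2 ?_
  refine squeeze_zero (fun _ => norm_nonneg _) (fun y => f.norm_sub_le y x) ?_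
  have : Continuous fun y => ‖f‖ * dist y x ^ a :=
    continuous_const.mul ((continuous_id.dist continuous_const).rpow_const fun _ => Or.inr ha.le)
  simpa [Real.zero_rpow ha.ne'] using this.tendsto x

/-- evaluation -/
def evalL (x : X) : Hol a X F →L[ℝ] F :=
  LinearMap.mkContinuous ⟨⟨fun f => f x, fun _ _ => rfl⟩, fun _ _ => rfl⟩ 1 fun f => by
    rw [one_mul]; exact f.norm_apply_le x

@[simp] theorem evalL_apply (x : X) (f : Hol a X F) : evalL x f = f x := rfl

theorem continuous_eval (x : X) : Continuous fun f : Hol a X F => f x := (evalL x).continuous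

@[simp] theorem sum_apply {ι : Type*} (s : Finset ι) (f : ι → Hol a X F) (x : X) :
    (∑ i ∈ s, f i) x = ∑ i ∈ s, f i x := map_sum (evalL x) f s

/-- a linear map into the space given by pointwise formulas and bounds -/
def liftL (T : E →ₗ[ℝ] X → F) (C : ℝ) (hC : 0 ≤ C) (h1 : ∀ e x, ‖T e x‖ ≤ C * ‖e‖)
    (h2 : ∀ e x y, ‖T e x - T e y‖ ≤ C * ‖e‖ * dist x y ^ a) : E →L[ℝ] Hol a X F :=
  LinearMap.mkContinuous
    ⟨⟨fun e => mk (T e) ⟨_, h1 e, h2 e⟩, fun u v => ext fun x => congrFun (map_add T u v) x⟩,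
      fun c u => ext fun x => congrFun (map_smul T c u) x⟩ C fun e => norm_le (by positivity) (h1 e) (h2 e)

@[simp] theorem liftL_apply (T : E →ₗ[ℝ] X → F) (C : ℝ) (hC : 0 ≤ C) (h1 h2) (e : E) (x : X) :
    (liftL (a := a) T C hC h1 h2 e) x = T e x := rfl

theorem norm_liftL_le (T : E →ₗ[ℝ] X → F) (C : ℝ) (hC : 0 ≤ C) (h1 h2) :
    ‖liftL (a := a) T C hC h1 h2‖ ≤ C := LinearMap.mkContinuous_norm_le _ hC _

/-- the underlying function as a linear map -/
def coeL : Hol a X F →ₗ[ℝ] X → F := ⟨⟨toFun, fun _ _ => rfl⟩, fun _ _ => rfl⟩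

@[simp] theorem coeL_apply (f : Hol a X F) (x : X) : coeL f x = f x := rfl

/-- constants -/
def constL : F →L[ℝ] Hol a X F :=
  liftL ⟨⟨fun v _ => v, fun _ _ => rfl⟩, fun _ _ => rfl⟩ 1 zero_le_one (fun e _ => by simp)
    fun e x y => by simp only [LinearMap.coe_mk, AddHom.coe_mk, sub_self, norm_zero]; positivity

@[simp] theorem constL_apply (v : F) (x : X) : (constL v : Hol a X F) x = v := rfl

/-- composition with a linear map on the values -/
def mapL (A : F →L[ℝ] G) : Hol a X F →L[ℝ] Hol a X G :=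
  liftL ⟨⟨fun f x => A (f x), fun _ _ => funext fun _ => by simp⟩,
      fun _ _ => funext fun _ => by simp⟩ ‖A‖ (norm_nonneg _)
    (fun f x => (A.le_opNorm _).trans (by gcongr; exact f.norm_apply_le x)) fun f x y => by
      simp only [LinearMap.coe_mk, AddHom.coe_mk, ← map_sub, mul_assoc]
      exact (A.le_opNorm _).trans (by gcongr; exact f.norm_sub_le x y)

@[simp] theorem mapL_apply (A : F →L[ℝ] G) (f : Hol a X F) (x : X) : mapL A f x = A (f x) := rfl

theorem norm_mapL_le (A : F →L[ℝ] G) : ‖(mapL A : Hol a X F →L[ℝ] Hol a X G)‖ ≤ ‖A‖ :=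
  norm_liftL_le _ _ _ _ _

/-- composition with a Lipschitz map of the domains -/
def compL (ha : 0 ≤ a) (φ : Y → X) {L : NNReal} (hφ : LipschitzWith L φ) :
    Hol a X F →L[ℝ] Hol a Y F :=
  liftL ⟨⟨fun f y => f (φ y), fun _ _ => rfl⟩, fun _ _ => rfl⟩ (1 + L ^ a) (by positivity)
    (fun f y => (f.norm_apply_le _).trans
      (le_mul_of_one_le_left (norm_nonneg _) (le_add_of_nonneg_right (by positivity))))
    fun f x y => by
      refine (f.norm_sub_le _ _).trans ?_
      have h1 : dist (φ x) (φ y) ^ a ≤ L ^ a * dist x y ^ a := by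
        rw [← Real.mul_rpow (NNReal.coe_nonneg L) dist_nonneg]
        exact Real.rpow_le_rpow dist_nonneg (hφ.dist_le_mul x y) ha
      have h2 : 0 ≤ ‖f‖ * dist x y ^ a := by positivity
      nlinarith [mul_le_mul_of_nonneg_left h1 (norm_nonneg f)]

@[simp] theorem compL_apply (ha : 0 ≤ a) (φ : Y → X) {L : NNReal} (hφ : LipschitzWith L φ)
    (f : Hol a X F) (y : Y) : compL ha φ hφ f y = f (φ y) := rfl

theorem bil_bound (B : E →L[ℝ] F →L[ℝ] G) (f : Hol a X E) (g : Hol a X F) :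
    (∀ x, ‖B (f x) (g x)‖ ≤ 2 * ‖B‖ * ‖f‖ * ‖g‖) ∧
      ∀ x y, ‖B (f x) (g x) - B (f y) (g y)‖ ≤ 2 * ‖B‖ * ‖f‖ * ‖g‖ * dist x y ^ a := by
  constructor
  · intro x
    have : ‖B (f x) (g x)‖ ≤ ‖B‖ * ‖f‖ * ‖g‖ := (B.le_opNorm₂ _ _).trans (by
      gcongr
      exacts [f.norm_apply_le x, g.norm_apply_le x])
    have h0 : 0 ≤ ‖B‖ * ‖f‖ * ‖g‖ := by positivity
    linarith
  · intro x y
    have e : B (f x) (g x) - B (f y) (g y) = B (f x - f y) (g x) + B (f y) (g x - g y) := by
      simp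
    have h1 : ‖B (f x - f y) (g x)‖ ≤ ‖B‖ * (‖f‖ * dist x y ^ a) * ‖g‖ :=
      (B.le_opNorm₂ _ _).trans (by
        gcongr
        exacts [f.norm_sub_le x y, g.norm_apply_le x])
    have h2 : ‖B (f y) (g x - g y)‖ ≤ ‖B‖ * ‖f‖ * (‖g‖ * dist x y ^ a) :=
      (B.le_opNorm₂ _ _).trans (by
        gcongr
        exacts [f.norm_apply_le y, g.norm_sub_le x y])
    rw [e]
    refine (norm_add_le _ _).trans ?_
    linarith

/-- pointwise bilinear operations -/
def bil (B : E →L[ℝ] F →L[ℝ] G) : Hol a X E →L[ℝ] Hol a X F →L[ℝ] Hol a X G :=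
  LinearMap.mkContinuous₂
    (LinearMap.mk₂ ℝ (fun f g => mk (fun x => B (f x) (g x)) ⟨_, bil_bound B f g⟩)
      (fun f g h => ext fun x => congrArg (fun A : F →L[ℝ] G => A (h x)) (map_add B (f x) (g x)))
      (fun c f h => ext fun x => congrArg (fun A : F →L[ℝ] G => A (h x)) (map_smul B c (f x)))
      (fun f g h => ext fun x => map_add (B (f x)) (g x) (h x))
      (fun c f g => ext fun x => map_smul (B (f x)) c (g x)))
    (2 * ‖B‖) fun f g => norm_le (by positivity) (bil_bound B f g).1 (bil_bound B f g).2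

@[simp] theorem bil_apply (B : E →L[ℝ] F →L[ℝ] G) (f : Hol a X E) (g : Hol a X F) (x : X) :
    bil B f g x = B (f x) (g x) := rfl

theorem norm_bil_le (B : E →L[ℝ] F →L[ℝ] G) (f : Hol a X E) (g : Hol a X F) :
    ‖bil B f g‖ ≤ 2 * ‖B‖ * ‖f‖ * ‖g‖ :=
  norm_le (by positivity) (bil_bound B f g).1 (bil_bound B f g).2

/-- pointwise application of operator valued functions -/
def appL : Hol a X (E →L[ℝ] F) →L[ℝ] Hol a X E →L[ℝ] Hol a X F :=
  bil (ContinuousLinearMap.id ℝ (E →L[ℝ] F))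

@[simp] theorem appL_apply (A : Hol a X (E →L[ℝ] F)) (f : Hol a X E) (x : X) :
    appL A f x = A x (f x) := rfl

theorem norm_appL_le (A : Hol a X (E →L[ℝ] F)) (f : Hol a X E) : ‖appL A f‖ ≤ 2 * ‖A‖ * ‖f‖ := by
  refine (norm_bil_le _ A f).trans ?_
  have : ‖ContinuousLinearMap.id ℝ (E →L[ℝ] F)‖ ≤ 1 := ContinuousLinearMap.norm_id_le
  have h0 : 0 ≤ ‖A‖ * ‖f‖ := by positivity
  nlinarith

/-- pairs of functions -/
def pairL : Hol a X E × Hol a X F →L[ℝ] Hol a X (E × F) :=
  (mapL (.inl ℝ E F)).coprod (mapL (.inr ℝ E F))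

@[simp] theorem pairL_apply (p : Hol a X E × Hol a X F) (x : X) : pairL p x = (p.1 x, p.2 x) := by
  simp [pairL]

/-- a smaller exponent -/
def inclL {b : ℝ} (ha : 0 ≤ a) (hab : a ≤ b) : Hol b X F →L[ℝ] Hol a X F :=
  liftL coeL 2 zero_le_two
    (fun f x => (f.norm_apply_le x).trans (by linarith [norm_nonneg f])) fun f x y => by
      have h0 : 0 ≤ ‖f‖ * dist x y ^ a := by positivity
      rcases eq_or_ne x y with rfl | h
      · rw [sub_self, norm_zero]
        positivity
      rcases le_total (dist x y) 1 with h1 | h1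
      · have := mul_le_mul_of_nonneg_left
          (Real.rpow_le_rpow_of_exponent_ge (dist_pos.2 h) h1 hab) (norm_nonneg f)
        have h2 := f.norm_sub_le x y
        simp only [coeL_apply]
        linarith
      · have := mul_le_mul_of_nonneg_left (Real.one_le_rpow h1 ha) (norm_nonneg f)
        have h2 := (_root_.norm_sub_le (f x) (f y)).trans
          (add_le_add (f.norm_apply_le x) (f.norm_apply_le y))
        simp only [coeL_apply]
        linarith

@[simp] theorem inclL_apply {b : ℝ} (ha : 0 ≤ a) (hab : a ≤ b) (f : Hol b X F) (x : X) :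
    inclL ha hab f x = f x := rfl

end Hol

/-- bounded Lipschitz functions are Hoelder -/
theorem IsHol.of_lipschitz {a : ℝ} (ha : 0 ≤ a) (ha1 : a ≤ 1) {X : Type*} [MetricSpace X]
    {F : Type*} [NormedAddCommGroup F] [NormedSpace ℝ F] {f : X → F} {C L : ℝ}
    (h1 : ∀ x, ‖f x‖ ≤ C) (h2 : ∀ x y, ‖f x - f y‖ ≤ L * dist x y) : IsHol a f := by
  have : IsHol 1 f := ⟨max C L, fun x => (h1 x).trans (le_max_left _ _), fun x y => by
    rw [Real.rpow_one]
    exact (h2 x y).trans (by gcongr; exact le_max_right _ _)⟩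
  exact (Hol.inclL ha ha1 (Hol.mk f this)).isHol

end

end Pool.Agent.Lib.MP_1c0d65_gt
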